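import Mathlib

set_option autoImplicit false

namespace Pool.Agent.Results.MP_ae31bd_an.Counter

open TensorProduct

def Idempotent {E : Type} [Ring E] [Algebra ℂ E] (I : Submodule ℂ E) : Prop :=
  Submodule.span ℂ {z | ∃ x ∈ I, ∃ y ∈ I, z = x * y} = I

def DiagIdempotent (B : Type) [Ring B] [Algebra ℂ B] : Prop :=
  ∃ π : (B ⊗[ℂ] Bᵐᵒᵖ) →ₗ[ℂ] B, (∀ a b : B, π (a ⊗ₜ[ℂ] MulOpposite.op b) = a * b) ∧
    Idempotent (LinearMap.ker π)

def IsDer {A : Type} [NormedRing A] (D : A → A → ℂ) : Prop :=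
  ∀ a b c : A, D (a * b) c = D b (c * a) + D a (b * c)

def IsInner {A : Type} [NormedRing A] [NormedAlgebra ℂ A] (D : A → A → ℂ) : Prop :=
  ∃ f : A →L[ℂ] ℂ, ∀ a b : A, D a b = f (b * a) - f (a * b)

def WeaklyAmenable (A : Type) [NormedRing A] [NormedAlgebra ℂ A] : Prop :=
  ∀ D : A →L[ℂ] (A →L[ℂ] ℂ), IsDer (fun a b => D a b) → IsInner (fun a b => D a b)

theorem idem {B : Type} [Ring B] [Algebra ℂ B]
    (hB : ∀ b : B, b ∈ Submodule.span ℂ {e : B | e * e = e}) : DiagIdempotent B := by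
  let π : (B ⊗[ℂ] Bᵐᵒᵖ) →ₗ[ℂ] B :=
    (LinearMap.applyₗ (1 : B)).comp (AlgHom.mulLeftRight ℂ B).toLinearMap
  have hπ : ∀ z, π z = AlgHom.mulLeftRight ℂ B z 1 := fun z => rfl
  have hform : ∀ a b : B, π (a ⊗ₜ MulOpposite.op b) = a * b := by
    intro a b
    rw [hπ, AlgHom.mulLeftRight_apply]
    simp
  have hleft : ∀ w z, z ∈ LinearMap.ker π → w * z ∈ LinearMap.ker π := by
    intro w z hz
    rw [LinearMap.mem_ker, hπ] at *
    rw [map_mul, Module.End.mul_apply, hz, map_zero]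
  refine ⟨π, hform, le_antisymm ?_ ?_⟩
  · rw [Submodule.span_le]
    rintro _ ⟨x, -, y, hy, rfl⟩
    exact hleft x y hy
  set S := Submodule.span ℂ {z | ∃ x ∈ LinearMap.ker π, ∃ y ∈ LinearMap.ker π, z = x * y}
  have hS : ∀ w s, s ∈ S → w * s ∈ S := by
    intro w s hs
    induction hs using Submodule.span_induction with
    | mem z hz =>
      obtain ⟨x, hx, y, hy, rfl⟩ := hz
      exact Submodule.subset_span ⟨w * x, hleft w x hx, y, hy, (mul_assoc _ _ _).symm⟩
    | zero => simp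
    | add a b _ _ ha hb => rw [mul_add]; exact S.add_mem ha hb
    | smul c a _ ha => rw [mul_smul_comm]; exact S.smul_mem c ha
  have hd : ∀ b : B, ((1 : B) ⊗ₜ[ℂ] MulOpposite.op b - b ⊗ₜ[ℂ] (1 : Bᵐᵒᵖ)) ∈ S := by
    intro b
    induction hB b using Submodule.span_induction with
    | mem e he =>
      have he' : e * e = e := he
      set d := (1 : B) ⊗ₜ[ℂ] MulOpposite.op e - e ⊗ₜ[ℂ] (1 : Bᵐᵒᵖ) with hdef
      have hd : d ∈ LinearMap.ker π := by
        rw [LinearMap.mem_ker, hdef, map_sub, hform, ← MulOpposite.op_one, hform]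
        simp
      have h3 : d = d * (d * d) := by
        simp only [hdef, mul_sub, sub_mul, Algebra.TensorProduct.tmul_mul_tmul, mul_one, one_mul,
          ← MulOpposite.op_mul, he']
        abel
      rw [h3]
      exact Submodule.subset_span ⟨d, hd, d * d, hleft d d hd, rfl⟩
    | zero => simp
    | add a b _ _ ha hb =>
      have := S.add_mem ha hb
      rw [MulOpposite.op_add, tmul_add, add_tmul]
      convert this using 1
      abel
    | smul c a _ ha =>
      have := S.smul_mem c ha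
      rw [smul_sub] at this
      rw [MulOpposite.op_smul, tmul_smul, ← smul_tmul']
      exact this
  have hall : ∀ z, z - π z ⊗ₜ[ℂ] (1 : Bᵐᵒᵖ) ∈ S := by
    intro z
    induction z using TensorProduct.induction_on with
    | zero => simp
    | tmul a b =>
      have := hS (a ⊗ₜ[ℂ] (1 : Bᵐᵒᵖ)) _ (hd b.unop)
      rw [← MulOpposite.op_unop b, hform]
      simpa [mul_sub] using this
    | add x y hx hy =>
      have := S.add_mem hx hy
      rw [map_add, add_tmul]
      convert this using 1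
      abel
  intro z hz
  have := hall z
  rwa [LinearMap.mem_ker.mp hz, zero_tmul, sub_zero] at this

abbrev M := Matrix (Fin 2) (Fin 2) ℂ

def AA : Subalgebra ℂ (M × M) where
  carrier := {p | p.1 1 0 = 0 ∧ p.2 1 0 = 0 ∧ p.1 0 0 = p.2 1 1 ∧ p.1 1 1 = p.2 0 0}
  mul_mem' := by
    rintro p q ⟨h1, h2, h3, h4⟩ ⟨g1, g2, g3, g4⟩
    simp [Matrix.mul_apply, Fin.sum_univ_two, h1, h2, h3, h4, g1, g2, g3, g4]
  add_mem' := by
    rintro p q ⟨h1, h2, h3, h4⟩ ⟨g1, g2, g3, g4⟩
    simp [h1, h2, h3, h4, g1, g2, g3, g4]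
  algebraMap_mem' := by
    intro c
    simp [Matrix.algebraMap_matrix_apply]

def mk (l m u v : ℂ) : AA := ⟨(!![l, u; 0, m], !![m, v; 0, l]), by simp [AA]⟩

theorem mk_mul (l m u v l' m' u' v' : ℂ) :
    mk l m u v * mk l' m' u' v' = mk (l * l') (m * m') (l * u' + u * m') (m * v' + v * l') := by
  apply Subtype.ext
  simp [mk]

theorem eq_mk (a : AA) : ∃ l m u v, a = mk l m u v := by
  obtain ⟨⟨p, q⟩, h1, h2, h3, h4⟩ := a
  dsimp only at h1 h2 h3 h4
  refine ⟨p 0 0, p 1 1, p 0 1, q 0 1, Subtype.ext (Prod.ext ?_ ?_)⟩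
  · ext i j
    fin_cases i <;> fin_cases j <;> simp_all [mk]
  · ext i j
    fin_cases i <;> fin_cases j <;> simp_all [mk]

theorem mk_comb (l m u v : ℂ) : mk l m u v =
    m • mk 1 1 0 0 + (l - m - u - v) • mk 1 0 0 0 + u • mk 1 0 1 0 + v • mk 1 0 0 1 := by
  apply Subtype.ext
  refine Prod.ext ?_ ?_ <;> ext i j <;> fin_cases i <;> fin_cases j <;> simp [mk] <;> ring

theorem span_idem (b : Unitization ℂ AA) :
    b ∈ Submodule.span ℂ {e : Unitization ℂ AA | e * e = e} := by
  have h : ∀ a : AA, a * a = a →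
      (a : Unitization ℂ AA) ∈ Submodule.span ℂ {e : Unitization ℂ AA | e * e = e} := by
    intro a ha
    refine Submodule.subset_span ?_
    show (a : Unitization ℂ AA) * a = a
    rw [← Unitization.inr_mul, ha]
  induction b using Unitization.ind with
  | inl_add_inr r a =>
    refine Submodule.add_mem _ ?_ ?_
    · have : (Unitization.inl r : Unitization ℂ AA) = r • (1 : Unitization ℂ AA) := by
        ext <;> simp
      rw [this]
      exact Submodule.smul_mem _ _ (Submodule.subset_span (mul_one _))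
    · obtain ⟨l, m, u, v, rfl⟩ := eq_mk a
      rw [mk_comb]
      simp only [Unitization.inr_add, Unitization.inr_smul]
      refine Submodule.add_mem _ (Submodule.add_mem _ (Submodule.add_mem _ ?_ ?_) ?_) ?_ <;>
        exact Submodule.smul_mem _ _ (h _ (by simp [mk_mul]))

def uL : AA →ₗ[ℂ] ℂ := ⟨⟨fun a => a.1.1 0 1, fun _ _ => rfl⟩, fun _ _ => rfl⟩

def vL : AA →ₗ[ℂ] ℂ := ⟨⟨fun a => a.1.2 0 1, fun _ _ => rfl⟩, fun _ _ => rfl⟩

theorem main {A : Type} [NormedRing A] [NormedAlgebra ℂ A] [FiniteDimensional ℂ A]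
    (u v : A →ₗ[ℂ] ℂ)
    (h : ∀ a b c, u (a * b) * v c - v (a * b) * u c =
      (u b * v (c * a) - v b * u (c * a)) + (u a * v (b * c) - v a * u (b * c)))
    (x y : A) (hxy : x * y = y * x) (hne : u x * v y - v x * u y ≠ 0) :
    ¬ WeaklyAmenable A := by
  let U : A →L[ℂ] ℂ := LinearMap.toContinuousLinearMap u
  let V : A →L[ℂ] ℂ := LinearMap.toContinuousLinearMap v
  have hD : ∀ a b, (U.smulRight V - V.smulRight U) a b = u a * v b - v a * u b := by
    intro a b
    simp [U, V]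
  intro hW
  obtain ⟨f, hf⟩ := hW (U.smulRight V - V.smulRight U) (fun a b c => by
    simp only [hD]
    exact h a b c)
  have := hf x y
  simp only [hD] at this
  rw [hxy, sub_self] at this
  exact hne this

theorem comp (A : Type) [NormedRing A] [NormedAlgebra ℂ A] [FiniteDimensional ℂ A] :
    CompleteSpace A := FiniteDimensional.complete ℂ A

theorem result : ∃ (A : Type) (_ : NormedRing A) (_ : NormedAlgebra ℂ A) (_ : CompleteSpace A)
    (_ : FiniteDimensional ℂ A), DiagIdempotent (Unitization ℂ A) ∧ ¬ WeaklyAmenable A := by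
  let _ : NormedRing M := Matrix.linftyOpNormedRing
  let _ : NormedAlgebra ℂ M := Matrix.linftyOpNormedAlgebra
  have hfd : FiniteDimensional ℂ AA := inferInstance
  have hu : ∀ l m s t, uL (mk l m s t) = s := fun _ _ _ _ => rfl
  have hv : ∀ l m s t, vL (mk l m s t) = t := fun _ _ _ _ => rfl
  refine ⟨AA, inferInstance, inferInstance, comp AA, hfd, idem span_idem,
    main uL vL (fun a b c => ?_) (mk 0 0 1 0) (mk 0 0 0 1) (by simp [mk_mul]) (by simp [hu, hv])⟩
  obtain ⟨l, m, s, t, rfl⟩ := eq_mk a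
  obtain ⟨l', m', s', t', rfl⟩ := eq_mk b
  obtain ⟨l'', m'', s'', t'', rfl⟩ := eq_mk c
  simp only [mk_mul, hu, hv]
  ring

end Pool.Agent.Results.MP_ae31bd_an.Counter
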